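import Pool.Agent.helper60.EPT.SpecS

/-!
# sr:DFA (project EPT, MP_2b48c2_lc): the reduction of a formula to its minimal clauses in polynomial time
-/

set_option autoImplicit false

namespace Pool.Agent.EPT

open D

theorem DFA_sb (hC : Cal) (hL : CalL) (f g : D → D) (hf : FP f) (hg : FP g) :
    FP fun x => tv (sb (f x) (g x)) := by
  have h1 := hL.all (fun y => tv (y.fst ∈ y.snd.toList)) f g
    (hL.mem _ _ (hC.fst _ hC.id) (hC.snd _ hC.id)) hf hg
  have h2 : (fun x => tv (sb (f x) (g x))) = fun x =>
      tv (∀ a ∈ (f x).toList, (fun y : D => tv (y.fst ∈ y.snd.toList)) (cons a (g x)) ≠ nil) := by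
    funext x
    refine tv_congr _ _ ?_
    simp only [tv_ne_nil, fst_cons, snd_cons]
    exact Iff.rfl
  rw [h2]
  exact h1

/-- equality of the two clauses of a pair -/
def DFA_r2 (z : D) : D := tv (tv (sb z.snd z.fst) ≠ nil ∧ tv (sb z.fst z.snd) ≠ nil)

theorem DFA_r2_fp (hC : Cal) (hL : CalL) : FP DFA_r2 := by
  have h1 : FP fun y : D => y.fst := hC.fst _ hC.id
  have h2 : FP fun y : D => y.snd := hC.snd _ hC.id
  exact hC.and _ _ (DFA_sb hC hL _ _ h2 h1) (DFA_sb hC hL _ _ h1 h2)

/-- a clause contained in another one is equal to it -/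
def DFA_r1 (z : D) : D := tv (tv (tv (sb z.fst z.snd) = nil) ≠ nil ∨ tv (sb z.snd z.fst) ≠ nil)

theorem DFA_r1_fp (hC : Cal) (hL : CalL) : FP DFA_r1 := by
  have h1 : FP fun y : D => y.fst := hC.fst _ hC.id
  have h2 : FP fun y : D => y.snd := hC.snd _ hC.id
  exact hC.or _ _ (hC.not _ (DFA_sb hC hL _ _ h1 h2)) (DFA_sb hC hL _ _ h2 h1)

/-- one step -/
def DFA_f (y : D) : D := if tv (∃ a ∈ y.fst.toList, DFA_r2 (cons a y.snd.fst) ≠ nil) = nil then
  cons y.snd.fst y.fst else y.fst

/-- one step, on lists -/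
def DFA_g (acc : List D) (c : D) : List D := if ∃ c' ∈ acc, sb c c' ∧ sb c' c then acc else c :: acc

theorem DFA_f_fp (hC : Cal) (hL : CalL) : FP DFA_f := by
  have h1 : FP fun y : D => y.fst := hC.fst _ hC.id
  have h2 : FP fun y : D => y.snd.fst := hC.fst _ (hC.snd _ hC.id)
  have h3 := hL.any DFA_r2 (fun y : D => y.fst) (fun y : D => y.snd.fst) (DFA_r2_fp hC hL) h1 h2
  have h4 : FP fun y : D => cons y.snd.fst y.fst := hC.cons _ _ h2 h1
  exact hC.cond _ _ _ h3 h1 h4

theorem DFA_step (M : List D) (a : D) :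
    DFA_f (cons (ofList M) (cons a nil)) = ofList (DFA_g M a) := by
  unfold DFA_f DFA_g DFA_r2
  simp only [snd_cons, fst_cons, toList_ofList, tv_ne_nil]
  by_cases h : ∃ c' ∈ M, sb a c' ∧ sb c' a
  · rw [if_neg (by rw [tv_eq_nil]; exact fun h2 => h2 h), if_pos h]
  · rw [if_pos (by rw [tv_eq_nil]; exact h), if_neg h, ofList_cons]

theorem DFA_fold (L M : List D) : L.foldl (fun acc h => DFA_f (cons acc (cons h nil))) (ofList M) =
    ofList (L.foldl DFA_g M) := by
  induction L generalizing M with
  | nil => rfl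
  | cons a L ih =>
    rw [List.foldl_cons, List.foldl_cons, DFA_step, ih]

theorem DFA_size (L M : List D) : (ofList (L.foldl DFA_g M)).size ≤
    (ofList M).size + (L.map size).sum + L.length := by
  induction L generalizing M with
  | nil => simp
  | cons a L ih =>
    rw [List.foldl_cons]
    by_cases h : ∃ c' ∈ M, sb a c' ∧ sb c' a
    · have e : DFA_g M a = M := if_pos h
      rw [e]
      have h1 := ih M
      rw [List.map_cons, List.sum_cons, List.length_cons]
      omega
    · have e : DFA_g M a = a :: M := if_neg h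
      rw [e]
      have h1 := ih (a :: M)
      rw [ofList_cons, size_cons] at h1
      rw [List.map_cons, List.sum_cons, List.length_cons]
      omega

theorem DFA_dq (hC : Cal) (hL : CalL) (l : D → D) (hl : FP l) : FP fun x => ofList (dq (l x).toList) := by
  have hfold := hC.fold DFA_f l (fun _ => nil) (fun _ => nil) (DFA_f_fp hC hL) hl (hC.const nil)
    (hC.const nil) (by
    obtain ⟨c, hc⟩ := hC.bound l hl
    refine ⟨c, ?_⟩
    intro x L hL
    refine le_trans ?_ (hc x)
    have h1 := DFA_fold L []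
    rw [ofList_nil] at h1
    rw [h1]
    have h2 := DFA_size L []
    rw [ofList_nil, size_nil] at h2
    obtain ⟨t, ht⟩ := hL
    have h3 : (l x).size = (((L ++ t).map size).sum) + (L ++ t).length + 1 := by
      rw [ht, ← size_ofList, ofList_toList]
    rw [List.map_append, List.sum_append, List.length_append] at h3
    omega)
  have h5 : (fun x => (l x).toList.foldl (fun acc h => DFA_f (cons acc (cons h nil))) nil) =
      fun x => ofList (dq (l x).toList) := by
    funext x
    exact DFA_fold (l x).toList []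
  rw [h5] at hfold
  exact hfold

theorem DFA (hC : Cal) (hL : CalL) : DFA_stmt := by
  refine ⟨fun f g hf hg => DFA_sb hC hL f g hf hg, fun f hf => ?_⟩
  have h1 : FP fun y : D => tv (∀ a ∈ y.snd.toList, DFA_r1 (cons a y.fst) ≠ nil) :=
    hL.all DFA_r1 _ _ (DFA_r1_fp hC hL) (hC.snd _ hC.id) (hC.fst _ hC.id)
  have h2 := hL.filter (fun y : D => tv (∀ a ∈ y.snd.toList, DFA_r1 (cons a y.fst) ≠ nil)) f f h1 hf hf
  have h3 := DFA_dq hC hL _ h2
  have h4 : (fun x => rdD (f x)) = fun x => ofList (dq (ofList ((f x).toList.filter fun a =>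
      (fun y : D => tv (∀ a ∈ y.snd.toList, DFA_r1 (cons a y.fst) ≠ nil)) (cons a (f x)) ≠ nil)).toList) := by
    funext x
    unfold rdD
    rw [toList_ofList]
    congr 2
    apply List.filter_congr
    intro c _
    apply decide_eq_decide.2
    simp only [tv_ne_nil, fst_cons, snd_cons, DFA_r1, tv_eq_nil]
    refine forall_congr' fun c' => forall_congr' fun _ => ?_
    constructor
    · intro h
      by_cases h5 : sb c' c
      · exact Or.inr (h h5)
      · exact Or.inl h5
    · rintro (h | h) h5
      · exact absurd h5 h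
      · exact h
  rw [h4]
  exact h3

end Pool.Agent.EPT
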