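import Pool.Agent.helper60.EPT.Spec

/-!
# Row eth:TUR: all lists over `U` of a given length, computed in time polynomial in their number
-/

set_option autoImplicit false

namespace Pool.Agent.EPT

open D

/-- the step of the iteration -/
def TUR_f (s : D) : D := cons s.fst (prd s.fst s.snd)

theorem TUR_iter (U t : D) (i : ℕ) : TUR_f^[i] (cons U t) = cons U ((prd U)^[i] t) := by
  induction i with
  | zero => rfl
  | succ i ih =>
    rw [Function.iterate_succ_apply', Function.iterate_succ_apply', ih]
    rfl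

theorem TUR_FP (hC : Cal) (hL : CalL) : FP TUR_f := by
  have hg : FP fun z : D => cons z.snd z.fst := hC.cons _ _ (hC.snd _ hC.id) (hC.fst _ hC.id)
  have hf : FP fun y : D => ofList ((y.snd).toList.map fun a => (fun z : D => cons z.snd z.fst) (cons a y.fst)) :=
    hL.map _ _ _ hg (hC.snd _ hC.id) (hC.fst _ hC.id)
  have hp := hL.flatMap (fun y : D => ofList ((y.snd).toList.map fun a => (fun z : D => cons z.snd z.fst) (cons a y.fst)))
    (fun x => x.fst) (fun x => x.snd) hf (hC.fst _ hC.id) (hC.snd _ hC.id)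
  have hp' : FP fun x : D => prd x.fst x.snd := by
    have e : (fun x : D => prd x.fst x.snd) = fun x : D => ofList ((x.fst).toList.flatMap fun a =>
        ((fun y : D => ofList ((y.snd).toList.map fun a => (fun z : D => cons z.snd z.fst) (cons a y.fst))) (cons a x.snd)).toList) := by
      funext x
      simp only [prd, toList_ofList, snd_cons, fst_cons]
    rw [e]
    exact hp
  exact hC.cons _ _ (hC.fst _ hC.id) hp'

theorem TUR (hC : Cal) (hL : CalL) (hPBC : PBC_stmt) (hRBA : RBA_stmt) (hRCG : RCG_stmt) (hRCO : RCO_stmt) (hRIT : RIT_stmt)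
    (hTUS : TUS_stmt) : TUR_stmt := by
  obtain ⟨pc1, pc2, pc3, -, pc5, -⟩ := hPBC
  obtain ⟨rb1, rb2, rb3, -⟩ := hRBA
  obtain ⟨-, rg2, -, -⟩ := hRCG
  show RT (fun x => (x.fst.size + 1) ^ x.snd.toList.length + x.size) fun x => tup x.fst x.snd
  generalize hSdef : (fun x : D => (x.fst.size + 1) ^ x.snd.toList.length + x.size) = S
  have hSx : ∀ x : D, S x = (x.fst.size + 1) ^ x.snd.toList.length + x.size := fun x => by rw [← hSdef]
  have hS : PB S size := pc5 S size S (pc2 S) (fun x => by rw [hSx]; exact Nat.le_add_left _ _)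
  obtain ⟨hid, hconst⟩ := rb1 S hS
  have hfst : RT S fun x => x.fst := rg2 S fst (fun x => x) rb2 hid
  have hsnd : RT S fun x => x.snd := rg2 S snd (fun x => x) rb3 hid
  have ha : RT S fun x : D => cons x.fst (cons nil nil) := (hRCO S hS _ _ hfst (hconst (cons nil nil))).1
  have hB : PB S fun x => S x + S x * (S x + 2) * (S x + 2) + 2 := by
    have h2 : PB S fun x => S x + 2 := (pc3 S _ _ (pc2 S) (pc1 S 2)).1
    have h3 : PB S fun x => S x * (S x + 2) := (pc3 S _ _ (pc2 S) h2).2
    have h4 : PB S fun x => S x * (S x + 2) * (S x + 2) := (pc3 S _ _ h3 h2).2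
    have h5 : PB S fun x => S x + S x * (S x + 2) * (S x + 2) := (pc3 S _ _ (pc2 S) h4).1
    exact (pc3 S _ _ h5 (pc1 S 2)).1
  have hit := hRIT S hS TUR_f (fun x => x.snd) (fun x : D => cons x.fst (cons nil nil)) (TUR_FP hC hL) hsnd ha
    ⟨fun x => S x + S x * (S x + 2) * (S x + 2) + 2, hB, fun x i hi => by
      show (TUR_f^[i] (cons x.fst (cons nil nil))).size ≤ S x + S x * (S x + 2) * (S x + 2) + 2
      rw [TUR_iter, size_cons]
      have t1 := hTUS x.fst i
      have t2 : x.fst.size ≤ x.size := size_fst x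
      have t3 : x.size ≤ S x := by rw [hSx]; exact Nat.le_add_left _ _
      have t4 : x.fst.size ^ i ≤ S x := by
        rw [hSx]
        calc x.fst.size ^ i ≤ (x.fst.size + 1) ^ i := Nat.pow_le_pow_left (Nat.le_succ _) _
          _ ≤ (x.fst.size + 1) ^ x.snd.toList.length := Nat.pow_le_pow_right (Nat.succ_pos _) hi
          _ ≤ _ := Nat.le_add_right _ _
      have t5 : i ≤ S x := by
        have e1 := length_le_size x.snd
        have e2 := size_snd x
        omega
      have t6 : x.fst.size ^ i * (i + 2) * (x.fst.size + 2) ≤ S x * (S x + 2) * (S x + 2) :=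
        Nat.mul_le_mul (Nat.mul_le_mul t4 (by omega)) (by omega)
      omega⟩
  have hres := rg2 S snd _ rb3 hit
  have e : (fun x : D => (TUR_f^[(x.snd).toList.length] (cons x.fst (cons nil nil))).snd) = fun x : D => tup x.fst x.snd := by
    funext x
    rw [TUR_iter]
    rfl
  rw [← e]
  exact hres

end Pool.Agent.EPT
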